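import Mathlib
import Pool.Agent.U37.MQ.Stm

/-!
# Project MQ, package PAS: no failure of Miquel's theorem implies Pascal's theorem on the line
-/

set_option autoImplicit false

namespace Pool.Agent.U934.MQ

open Finset Equiv Pool.Agent.U37.MQ Pool.Agent.N606.ST Pool.Agent.U671.PG

open scoped Classical

theorem chord_mem {V : Type} {B : Finset (Finset V)} {O : Finset V} {P A C : V}
    (h : Chord B O P A C) : A ∈ O ∧ C ∈ O := by
  obtain ⟨b, _, _, h1⟩ := h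
  have hA : A ∈ b ∩ O := by rw [h1]; simp
  have hC : C ∈ b ∩ O := by rw [h1]; simp
  exact ⟨(mem_inter.1 hA).2, (mem_inter.1 hC).2⟩

theorem pair_shift {V : Type} {a b c : V} (h : ({a, b} : Finset V) = {b, c}) : a = c := by
  have h1 : a ∈ ({b, c} : Finset V) := by rw [← h]; simp
  have h2 : c ∈ ({a, b} : Finset V) := by rw [h]; simp
  simp only [mem_insert, mem_singleton] at h1 h2
  rcases h1 with h1 | h1
  · rcases h2 with h2 | h2
    · exact h2.symm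
    · rw [h1, h2]
  · exact h1

theorem snd_mem {V : Type} {g k : Finset V} {a c : V} (h : g ∩ k = {a, c}) : c ∈ g := by
  have : c ∈ g ∩ k := by rw [h]; simp
  exact (mem_inter.1 this).1

theorem t_PAS : S_OV → S_LINK → S_ALG → S_PAS := by
  intro hOV hLINK hALG V V' _ _ n B X B' pt dir ln inf hn hInc hC k hk hXk g hg hXg hf
    P hP Q hQ R hR hFail
  have hgk : g ≠ k := by
    rintro rfl
    exact hXk hXg
  obtain ⟨I, hsym, hinv, hex, hinj, hlink⟩ := hLINK V n B (by omega) hInc g hg k hk hgk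
  have hcard : 3 ≤ Fintype.card {x : V // x ∈ g ∧ x ∉ k} := by
    rw [Fintype.card_subtype]
    have h1 : (univ.filter fun x => x ∈ g ∧ x ∉ k) = g \ k := by
      ext x
      simp
    rw [h1]
    have h2 := card_sdiff_add_card_inter g k
    have h3 := hInc.cb g hg
    have h4 := hInc.two g hg k hk hgk
    omega
  have hone : ∀ x y z p : {x : V // x ∈ g ∧ x ∉ k}, x ≠ y → x ≠ z → x ≠ p → y ≠ z → y ≠ p →
      z ≠ p → I p x * I z p * I y z * I x y = 1 := by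
    intro x y z p hxy hxz hxp hyz hyp hzp
    refine Equiv.ext fun A => ?_
    by_contra hne
    have hi4 : Function.Injective ![x, y, z, p] := by
      intro i j hij
      fin_cases i <;> fin_cases j <;>
        first
        | rfl
        | exact absurd hij hxy
        | exact absurd hij hxz
        | exact absurd hij hxp
        | exact absurd hij hyz
        | exact absurd hij hyp
        | exact absurd hij hzp
        | exact absurd hij.symm hxy
        | exact absurd hij.symm hxz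
        | exact absurd hij.symm hxp
        | exact absurd hij.symm hyz
        | exact absurd hij.symm hyp
        | exact absurd hij.symm hzp
    have hmem : ((fun i => ((![x, y, z, p] i : {x : V // x ∈ g ∧ x ∉ k}) : V)),
        (fun i => ((![A, I x y A, I y z (I x y A), I z p (I y z (I x y A))] i :
          {y : V // y ∈ k ∧ y ∉ g}) : V))) ∈ fails B g k := by
      rw [fails, mem_filter]
      refine ⟨mem_univ _, Subtype.val_injective.comp hi4, ?_, ?_, ?_, ?_, ?_⟩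
      · intro i
        exact ⟨(![x, y, z, p] i).2.1, (![x, y, z, p] i).2.2,
          (![A, I x y A, I y z (I x y A), I z p (I y z (I x y A))] i).2.1,
          (![A, I x y A, I y z (I x y A), I z p (I y z (I x y A))] i).2.2⟩
      · exact (hlink x y A _).1 rfl
      · exact (hlink y z (I x y A) _).1 rfl
      · exact (hlink z p (I y z (I x y A)) _).1 rfl
      · intro hL
        exact hne ((hlink p x (I z p (I y z (I x y A))) A).2 hL)
    rw [hf] at hmem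
    exact absurd hmem (notMem_empty _)
  have halg := hALG {x : V // x ∈ g ∧ x ∉ k} {y : V // y ∈ k ∧ y ∉ g} I hcard hsym hinv hex hinj
    hone
  obtain ⟨hPO, hQO, hRO, _, A, c1, c2, c3, c4, c5, c6, hne⟩ := hFail
  obtain ⟨a0, ha0, e0⟩ := mem_image.1 (chord_mem c1).1
  obtain ⟨a1, ha1, e1⟩ := mem_image.1 (chord_mem c1).2
  obtain ⟨a2, ha2, e2⟩ := mem_image.1 (chord_mem c2).2
  obtain ⟨a3, ha3, e3⟩ := mem_image.1 (chord_mem c3).2
  obtain ⟨a4, ha4, e4⟩ := mem_image.1 (chord_mem c4).2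
  obtain ⟨a5, ha5, e5⟩ := mem_image.1 (chord_mem c5).2
  obtain ⟨a6, ha6, e6⟩ := mem_image.1 (chord_mem c6).2
  rw [← e0, ← e1] at c1
  rw [← e1, ← e2] at c2
  rw [← e2, ← e3] at c3
  rw [← e3, ← e4] at c4
  rw [← e4, ← e5] at c5
  rw [← e5, ← e6] at c6
  have hO := (hOV V V' n B X B' pt dir ln inf (by omega) hInc hC k hk hXk).2 g hg hXg
  obtain ⟨p, hpg, hpk, hp⟩ := hO P hP hPO
  obtain ⟨q, hqg, hqk, hq⟩ := hO Q hQ hQO
  obtain ⟨r, hrg, hrk, hr⟩ := hO R hR hRO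
  apply hne
  rw [← e6, ← e0]
  congr 1
  by_cases h0 : a0 ∈ g
  · have s1 := (hp a0 ha0 a1 ha1 c1).2 h0
    have s2 := (hq a1 ha1 a2 ha2 c2).2 (snd_mem s1)
    have s3 := (hr a2 ha2 a3 ha3 c3).2 (snd_mem s2)
    have s4 := (hp a3 ha3 a4 ha4 c4).2 (snd_mem s3)
    have s5 := (hq a4 ha4 a5 ha5 c5).2 (snd_mem s4)
    have s6 := (hr a5 ha5 a6 ha6 c6).2 (snd_mem s5)
    have t1 := pair_shift (s1.symm.trans s2)
    have t3 := pair_shift (s3.symm.trans s4)
    have t5 := pair_shift (s5.symm.trans s6)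
    rw [t1, t3, t5]
  · have s1 := (hp a0 ha0 a1 ha1 c1).1 h0
    have s2 := (hq a1 ha1 a2 ha2 c2).1 s1.1
    have s3 := (hr a2 ha2 a3 ha3 c3).1 s2.1
    have s4 := (hp a3 ha3 a4 ha4 c4).1 s3.1
    have s5 := (hq a4 ha4 a5 ha5 c5).1 s4.1
    have s6 := (hr a5 ha5 a6 ha6 c6).1 s5.1
    have l1 : I ⟨X, hXg, hXk⟩ ⟨p, hpg, hpk⟩ ⟨a0, ha0, h0⟩ = ⟨a1, ha1, s1.1⟩ :=
      (hlink _ _ _ _).2 s1.2
    have l2 : I ⟨X, hXg, hXk⟩ ⟨q, hqg, hqk⟩ ⟨a1, ha1, s1.1⟩ = ⟨a2, ha2, s2.1⟩ :=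
      (hlink _ _ _ _).2 s2.2
    have l3 : I ⟨X, hXg, hXk⟩ ⟨r, hrg, hrk⟩ ⟨a2, ha2, s2.1⟩ = ⟨a3, ha3, s3.1⟩ :=
      (hlink _ _ _ _).2 s3.2
    have l4 : I ⟨X, hXg, hXk⟩ ⟨p, hpg, hpk⟩ ⟨a3, ha3, s3.1⟩ = ⟨a4, ha4, s4.1⟩ :=
      (hlink _ _ _ _).2 s4.2
    have l5 : I ⟨X, hXg, hXk⟩ ⟨q, hqg, hqk⟩ ⟨a4, ha4, s4.1⟩ = ⟨a5, ha5, s5.1⟩ :=
      (hlink _ _ _ _).2 s5.2
    have l6 : I ⟨X, hXg, hXk⟩ ⟨r, hrg, hrk⟩ ⟨a5, ha5, s5.1⟩ = ⟨a6, ha6, s6.1⟩ :=
      (hlink _ _ _ _).2 s6.2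
    have hfin := DFunLike.congr_fun (halg ⟨X, hXg, hXk⟩ ⟨r, hrg, hrk⟩ ⟨q, hqg, hqk⟩
      ⟨p, hpg, hpk⟩) ⟨a0, ha0, h0⟩
    simp only [Perm.mul_apply, Perm.one_apply, l1, l2, l3, l4, l5, l6] at hfin
    exact congrArg Subtype.val hfin

end Pool.Agent.U934.MQ
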